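import Mathlib.MeasureTheory.Measure.Lebesgue.EqHaar
import Mathlib.MeasureTheory.Measure.Haar.InnerProductSpace
import Mathlib.Analysis.InnerProductSpace.PiL2
import Mathlib.Topology.MetricSpace.HausdorffDistance
import Pool.Agent.Q154.Steiner

set_option autoImplicit false

/-!
# Full convergence of iterated Steiner symmetrizations (MP_c699aa_gt)
-/

open Set Topology MeasureTheory Metric Filter
open scoped ENNReal RealInnerProductSpace

namespace Pool.Agent.Results.MP_c699aa_gt.FullConvergence

/-- The orthogonal projection of `E` onto the hyperplane orthogonal to the unit vector `u`. -/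
def shadow {n : ℕ} (u : EuclideanSpace ℝ (Fin n)) (E : Set (EuclideanSpace ℝ (Fin n))) :
    Set (EuclideanSpace ℝ (Fin n)) := (fun x => x - ⟪u, x⟫ • u) '' E

/-- The length `ℓ_{E,u}(x')` of the section of `E` by the line through `x'` parallel to `u`. -/
noncomputable def sectionLength {n : ℕ} (u : EuclideanSpace ℝ (Fin n))
    (E : Set (EuclideanSpace ℝ (Fin n))) (x' : EuclideanSpace ℝ (Fin n)) : ℝ :=
  (volume {t : ℝ | x' + t • u ∈ E}).toReal

/-- The Steiner symmetrization of `E` in direction `u`. -/
def steiner {n : ℕ} (u : EuclideanSpace ℝ (Fin n)) (E : Set (EuclideanSpace ℝ (Fin n))) :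
    Set (EuclideanSpace ℝ (Fin n)) :=
  {y | ∃ x' ∈ shadow u E, ∃ t : ℝ, |t| ≤ sectionLength u E x' / 2 ∧ y = x' + t • u}

/-- The iterated symmetrals of `E` along the sequence `u`. -/
def iter {n : ℕ} (u : ℕ → EuclideanSpace ℝ (Fin n)) (E : Set (EuclideanSpace ℝ (Fin n))) :
    ℕ → Set (EuclideanSpace ℝ (Fin n))
  | 0 => E
  | i + 1 => steiner (u i) (iter u E i)

variable {n : ℕ}

theorem steiner_def (u : EuclideanSpace ℝ (Fin n)) (E : Set (EuclideanSpace ℝ (Fin n))) :
    steiner u E = Q154.Steiner.steiner u E := rfl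

theorem iter_sub {u : ℕ → EuclideanSpace ℝ (Fin n)} (hu : ∀ i, ‖u i‖ = 1)
    {E : Set (EuclideanSpace ℝ (Fin n))} {R : ℝ} {k : ℕ} (hk : iter u E k ⊆ closedBall 0 R) :
    ∀ i, k ≤ i → iter u E i ⊆ closedBall 0 R := by
  intro i hi
  induction i, hi using Nat.le_induction with
  | base => exact hk
  | succ i _ ih =>
    show steiner (u i) (iter u E i) ⊆ _
    rw [steiner_def]
    exact Q154.Steiner.steiner_sub_ball (hu i) ih

theorem iter_nonempty {u : ℕ → EuclideanSpace ℝ (Fin n)}
    {E : Set (EuclideanSpace ℝ (Fin n))} (hE : E.Nonempty) : ∀ i, (iter u E i).Nonempty := by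
  intro i
  induction i with
  | zero => exact hE
  | succ i ih => exact Q154.Steiner.steiner_nonempty ih

theorem iter_closed {u : ℕ → EuclideanSpace ℝ (Fin n)} (hu : ∀ i, ‖u i‖ = 1)
    {E : Set (EuclideanSpace ℝ (Fin n))} {R : ℝ} (hE : E ⊆ closedBall 0 R) (hEc : IsClosed E) :
    ∀ i, IsClosed (iter u E i) := by
  intro i
  induction i with
  | zero => exact hEc
  | succ i ih =>
    exact Q154.Steiner.steiner_closed (hu i) (iter_sub hu (k := 0) hE i (Nat.zero_le _)) ih

theorem iter_vol {u : ℕ → EuclideanSpace ℝ (Fin n)} (hu : ∀ i, ‖u i‖ = 1)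
    {E : Set (EuclideanSpace ℝ (Fin n))} {R : ℝ} (hE : E ⊆ closedBall 0 R) (hEc : IsClosed E) :
    ∀ i, volume (iter u E i) = volume E := by
  intro i
  induction i with
  | zero => rfl
  | succ i ih =>
    rw [← ih]
    exact Q154.Steiner.vol_steiner (hu i) (iter_sub hu (k := 0) hE i (Nat.zero_le _))
      (iter_closed hu hE hEc i)

/-- Let `E` be a nonempty compact set, `(u i)` any sequence of unit vectors and `closedBall 0 r` the
centred ball with the volume of `E`. If some subsequence of the iterated Steiner symmetrals of `E`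
converges to the ball in the Hausdorff distance, then the whole sequence does. -/
theorem result (n : ℕ) (E : Set (EuclideanSpace ℝ (Fin n))) (hE : IsCompact E)
    (hne : E.Nonempty) (u : ℕ → EuclideanSpace ℝ (Fin n)) (hu : ∀ i, ‖u i‖ = 1)
    (r : ℝ) (hr : 0 ≤ r)
    (hvol : volume (closedBall (0 : EuclideanSpace ℝ (Fin n)) r) = volume E)
    (φ : ℕ → ℕ) (_hφ : StrictMono φ)
    (hsub : Tendsto (fun j => hausdorffDist (iter u E (φ j)) (closedBall 0 r)) atTop (𝓝 0)) :
    Tendsto (fun i => hausdorffDist (iter u E i) (closedBall 0 r)) atTop (𝓝 0) := by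
  obtain ⟨R, hR⟩ := hE.isBounded.subset_closedBall 0
  have hbd : ∀ i, iter u E i ⊆ closedBall 0 R := fun i =>
    iter_sub hu (k := 0) hR i (Nat.zero_le _)
  rw [Metric.tendsto_atTop]
  intro lam hlam
  set m : ℝ := lam / 2 with hm
  have hm0 : 0 < m := by positivity
  set ρ : ℝ := min r (m / 2) with hρ
  -- the choice of `ε`
  obtain ⟨ε, hε0, hεm, hεv⟩ : ∃ ε : ℝ, 0 < ε ∧ ε ≤ m ∧ (0 < r →
      volume (closedBall (0 : EuclideanSpace ℝ (Fin n)) (r + ε)) <
        volume (closedBall (0 : EuclideanSpace ℝ (Fin n)) r) +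
          volume (ball (0 : EuclideanSpace ℝ (Fin n)) ρ)) := by
    by_cases hr0 : 0 < r
    · have hρ0 : 0 < ρ := lt_min hr0 (by positivity)
      set c := volume (ball (0 : EuclideanSpace ℝ (Fin n)) 1) with hc
      have hcfin : c ≠ ∞ := measure_ball_lt_top.ne
      let g : ℝ → ℝ≥0∞ := fun x =>
        ENNReal.ofReal ((r + x) ^ Module.finrank ℝ (EuclideanSpace ℝ (Fin n))) * c
      have hg : Continuous g :=
        (ENNReal.continuous_mul_const hcfin).comp (ENNReal.continuous_ofReal.comp (by fun_prop))
      have hg0 : g 0 < volume (closedBall (0 : EuclideanSpace ℝ (Fin n)) r) +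
          volume (ball (0 : EuclideanSpace ℝ (Fin n)) ρ) := by
        have e : g 0 = volume (closedBall (0 : EuclideanSpace ℝ (Fin n)) r) := by
          simp only [g, add_zero]
          rw [Measure.addHaar_closedBall _ _ hr]
        rw [e]
        exact ENNReal.lt_add_right measure_closedBall_lt_top.ne
          (measure_ball_pos _ _ hρ0).ne'
      have hev : ∀ᶠ x in 𝓝 (0 : ℝ), g x < volume (closedBall (0 : EuclideanSpace ℝ (Fin n)) r) +
          volume (ball (0 : EuclideanSpace ℝ (Fin n)) ρ) :=
        hg.continuousAt.eventually_lt continuousAt_const hg0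
      obtain ⟨δ, hδ0, hδ⟩ := Metric.eventually_nhds_iff.1 hev
      refine ⟨min (δ / 2) m, by positivity, min_le_right _ _, fun _ => ?_⟩
      have h1 : dist (min (δ / 2) m) 0 < δ := by
        rw [dist_zero_right, Real.norm_eq_abs, abs_of_pos (by positivity)]
        exact (min_le_left _ _).trans_lt (by linarith)
      have h2 := hδ h1
      rw [Measure.addHaar_closedBall _ _ (by positivity)]
      exact h2
    · exact ⟨m, hm0, le_rfl, fun h => absurd h hr0⟩
  -- a late set is in a slightly larger ball
  obtain ⟨J, hJ⟩ := (Metric.tendsto_atTop.1 hsub) ε hε0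
  have hfin : ∀ i, hausdorffEDist (iter u E i) (closedBall 0 r) ≠ ⊤ := fun i =>
    hausdorffEDist_ne_top_of_nonempty_of_bounded (iter_nonempty hne i)
      ⟨0, mem_closedBall_self hr⟩ (isBounded_closedBall.subset (hbd i)) isBounded_closedBall
  have hk : iter u E (φ J) ⊆ closedBall 0 (r + ε) := by
    intro x hx
    have h1 := hJ J le_rfl
    rw [dist_zero_right, Real.norm_eq_abs, abs_of_nonneg hausdorffDist_nonneg] at h1
    obtain ⟨y, hy, hxy⟩ := exists_dist_lt_of_hausdorffDist_lt hx h1 (hfin _)
    rw [mem_closedBall] at hy ⊢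
    have := dist_triangle x y 0
    linarith
  refine ⟨φ J, fun i hi => ?_⟩
  have hi2 : iter u E i ⊆ closedBall 0 (r + ε) := iter_sub hu hk i hi
  rw [dist_zero_right, Real.norm_eq_abs, abs_of_nonneg hausdorffDist_nonneg]
  refine lt_of_le_of_lt (hausdorffDist_le_of_mem_dist hm0.le ?_ ?_) (by linarith : m < lam)
  · intro x hx
    have hx2 := hi2 hx
    rw [mem_closedBall, dist_zero_right] at hx2
    by_cases hxr : ‖x‖ ≤ r
    · exact ⟨x, by rwa [mem_closedBall, dist_zero_right], by simpa using hm0.le⟩
    · rw [not_le] at hxr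
      have hx0 : 0 < ‖x‖ := hr.trans_lt hxr
      refine ⟨(r / ‖x‖) • x, ?_, ?_⟩
      · rw [mem_closedBall, dist_zero_right, norm_smul, Real.norm_eq_abs, abs_of_nonneg
          (by positivity), div_mul_cancel₀ _ hx0.ne']
      · have e : x - (r / ‖x‖) • x = (1 - r / ‖x‖) • x := by rw [sub_smul, one_smul]
        have h1 : 0 ≤ 1 - r / ‖x‖ := by
          rw [sub_nonneg, div_le_one hx0]; exact hxr.le
        rw [dist_eq_norm, e, norm_smul, Real.norm_eq_abs, abs_of_nonneg h1, sub_mul, one_mul,
          div_mul_cancel₀ _ hx0.ne']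
        linarith
  · intro x hx
    rw [mem_closedBall, dist_zero_right] at hx
    by_contra hcon
    push Not at hcon
    by_cases hr0 : 0 < r
    · have hρ0 : 0 < ρ := lt_min hr0 (by positivity)
      have hρr : ρ ≤ r := min_le_left _ _
      have hρm : ρ ≤ m / 2 := min_le_right _ _
      set z := (1 - ρ / r) • x with hz
      have hq : 0 ≤ 1 - ρ / r := by rw [sub_nonneg, div_le_one hr0]; exact hρr
      have hzr : ‖z‖ ≤ r - ρ := by
        rw [hz, norm_smul, Real.norm_eq_abs, abs_of_nonneg hq]
        calc (1 - ρ / r) * ‖x‖ ≤ (1 - ρ / r) * r := mul_le_mul_of_nonneg_left hx hq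
          _ = r - ρ := by field_simp
      have hzx : dist z x ≤ ρ := by
        have e : z - x = (-(ρ / r)) • x := by rw [hz, sub_smul, one_smul, neg_smul]; abel
        rw [dist_eq_norm, e, norm_smul, Real.norm_eq_abs, abs_neg, abs_of_nonneg (by positivity)]
        calc ρ / r * ‖x‖ ≤ ρ / r * r := mul_le_mul_of_nonneg_left hx (by positivity)
          _ = ρ := by field_simp
      have hdisj : Disjoint (iter u E i) (ball z ρ) := by
        rw [Set.disjoint_left]
        intro y hy hyz
        rw [mem_ball] at hyz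
        have h1 := hcon y hy
        have h2 := dist_triangle x z y
        rw [dist_comm x z, dist_comm z y] at h2
        linarith
      have hsub2 : iter u E i ∪ ball z ρ ⊆ closedBall 0 (r + ε) := by
        apply Set.union_subset hi2
        intro y hy
        rw [mem_ball] at hy
        rw [mem_closedBall]
        have h1 := dist_triangle y z 0
        rw [dist_zero_right z] at h1
        linarith
      have h1 := measure_mono (μ := volume) hsub2
      rw [measure_union hdisj measurableSet_ball, Measure.addHaar_ball_center,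
        iter_vol hu hR hE.isClosed i, ← hvol] at h1
      exact absurd h1 (not_le.2 (hεv hr0))
    · have hr' : r = 0 := le_antisymm (not_lt.1 hr0) hr
      obtain ⟨y, hy⟩ := iter_nonempty (u := u) hne i
      have h1 := hcon y hy
      have h2 := hi2 hy
      rw [mem_closedBall, dist_zero_right] at h2
      have h3 : x = 0 := norm_le_zero_iff.1 (by linarith)
      rw [h3, dist_zero_left] at h1
      linarith

end Pool.Agent.Results.MP_c699aa_gt.FullConvergence
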